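import Pool.Agent.Helper75.TC.FiniteTimeOf
import Pool.Agent.Helper63.TC.GenericAE
import Pool.Agent.Helper63.TC.GenericConst

/-!
The probability that the origin is green by a fixed scaled time converges.
-/

set_option autoImplicit false

open MeasureTheory Filter Topology

namespace Pool.Agent.Helper69.TC

theorem tendsto_greenBy {c : ℝ} (hc : 0 < c) {K : ℝ} (hK : 0 < K) :
    ∃ l : ℝ, Tendsto (fun p : ℝ => (law p (c * p)).real {ω | GreenBy p K ω}) (𝓝[>] 0) (𝓝 l) :=
  FiniteTime.tendsto_greenBy_of hc hK (fun _ => ae_gen hK)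
    (fun _ _ hx clr => eventually_const hK hx clr)

end Pool.Agent.Helper69.TC
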