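import Pool.Agent.Helper69.TC.Symm

/-!
Expansion over the number of seeds of the integral of a function of finitely many sites.
-/

set_option autoImplicit false

open MeasureTheory Filter Topology

namespace Pool.Agent.Helper69.TC

namespace Expansion

theorem isProb_site {p q : ℝ} (hp : 0 ≤ p) (hq : 0 ≤ q) (hpq : 2 * p + q ≤ 1) :
    IsProbabilityMeasure (siteLaw p q) := by
  constructor
  unfold siteLaw
  simp only [Measure.coe_add, Measure.coe_smul, Pi.add_apply, Pi.smul_apply, measure_univ,
    smul_eq_mul, mul_one]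
  rw [← ENNReal.ofReal_add hp hp, ← ENNReal.ofReal_add (by linarith) hq,
    ← ENNReal.ofReal_add (by linarith) (by linarith)]
  rw [show p + p + q + (1 - 2 * p - q) = 1 by ring, ENNReal.ofReal_one]

/-- Weight of the state of a site. -/
def wo (p q : ℝ) : Option Color → ℝ
  | none => 1 - 2 * p - q
  | some c => wt p q c

theorem siteLaw_real {p q : ℝ} (hp : 0 ≤ p) (hq : 0 ≤ q) (hpq : 2 * p + q ≤ 1)
    (o : Option Color) : (siteLaw p q).real {o} = wo p q o := by
  rw [measureReal_def]
  unfold siteLaw
  simp only [Measure.coe_add, Measure.coe_smul, Pi.add_apply, Pi.smul_apply, smul_eq_mul,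
    Measure.dirac_apply]
  rcases o with _ | c
  · simp [wo, Set.indicator]
    linarith
  · cases c <;> simp [wo, wt, Set.indicator, hp, hq]

open Classical in
/-- Extension by `none`. -/
noncomputable def ext (Λ : Finset Site) (σ : Λ → Option Color) : Site → Option Color := fun w =>
  if h : w ∈ Λ then σ ⟨w, h⟩ else none

open Classical in
/-- The coloured sites. -/
noncomputable def supp {Λ : Finset Site} (σ : Λ → Option Color) : Finset Λ :=
  Finset.univ.filter fun w => σ w ≠ none

theorem mem_supp {Λ : Finset Site} (σ : Λ → Option Color) (w : Λ) : w ∈ supp σ ↔ σ w ≠ none := by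
  simp [supp]

theorem integral_eq {p q : ℝ} (hp : 0 ≤ p) (hq : 0 ≤ q) (hpq : 2 * p + q ≤ 1) (Λ : Finset Site)
    (F : (Site → Option Color) → ℝ)
    (hF : ∀ s s' : Site → Option Color, (∀ z ∈ Λ, s z = s' z) → F s = F s') :
    ∫ s, F s ∂(Measure.infinitePi fun _ : Site => siteLaw p q) =
      ∑ σ : Λ → Option Color, (∏ w, wo p q (σ w)) * F (ext Λ σ) := by
  classical
  have := isProb_site hp hq hpq
  have h1 : (fun s => F s) = fun s => (fun σ => F (ext Λ σ)) (Finset.restrict Λ s) := by
    funext s
    refine hF _ _ fun z hz => ?_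
    simp [ext, hz]
  rw [h1]
  have hmap := Measure.infinitePi_map_restrict (fun _ : Site => siteLaw p q) (I := Λ)
  rw [← integral_map (μ := Measure.infinitePi fun _ : Site => siteLaw p q)
    (φ := Finset.restrict Λ) (f := fun σ => F (ext Λ σ))]
  · rw [hmap, integral_fintype]
    · refine Finset.sum_congr rfl fun σ _ => ?_
      rw [smul_eq_mul, measureReal_def, Measure.pi_singleton, ENNReal.toReal_prod]
      congr 1
      refine Finset.prod_congr rfl fun w _ => ?_
      rw [← siteLaw_real hp hq hpq, measureReal_def]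
    · exact Integrable.of_finite
  · exact (Finset.measurable_restrict Λ).aemeasurable
  · exact (Measurable.of_discrete).aestronglyMeasurable

theorem seedOf_apply {k : ℕ} {z : Fin k → Site} (hz : Function.Injective z) (clr : Fin k → Color)
    (i : Fin k) : seedOf z clr (z i) = some (clr i) := by
  have h : ∃ j, z j = z i := ⟨i, rfl⟩
  unfold seedOf
  rw [dif_pos h]
  rw [hz h.choose_spec]

theorem seedOf_none {k : ℕ} {z : Fin k → Site} {clr : Fin k → Color} {w : Site}
    (h : ∀ i, z i ≠ w) : seedOf z clr w = none := by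
  unfold seedOf
  rw [dif_neg]
  rintro ⟨i, hi⟩
  exact h i hi

/-- The placement as an embedding. -/
def emb {k : ℕ} {Λ : Finset Site} {z : Fin k → Site} (hz : Function.Injective z)
    (hzΛ : ∀ i, z i ∈ Λ) : Fin k ↪ Λ :=
  ⟨fun i => ⟨z i, hzΛ i⟩, fun _ _ h => hz (Subtype.ext_iff.1 h)⟩

theorem restrict_apply {k : ℕ} {Λ : Finset Site} {z : Fin k → Site} (hz : Function.Injective z)
    (hzΛ : ∀ i, z i ∈ Λ) (clr : Fin k → Color) (i : Fin k) :
    Finset.restrict Λ (seedOf z clr) (emb hz hzΛ i) = some (clr i) :=
  seedOf_apply hz clr i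

theorem supp_restrict {k : ℕ} {Λ : Finset Site} {z : Fin k → Site} (hz : Function.Injective z)
    (hzΛ : ∀ i, z i ∈ Λ) (clr : Fin k → Color) :
    supp (Finset.restrict Λ (seedOf z clr)) = Finset.univ.map (emb hz hzΛ) := by
  ext w
  rw [mem_supp, Finset.mem_map]
  constructor
  · intro h
    by_contra hcon
    push Not at hcon
    apply h
    apply seedOf_none
    intro i hi
    exact hcon i (Finset.mem_univ i) (Subtype.ext hi)
  · rintro ⟨i, -, rfl⟩
    rw [restrict_apply hz hzΛ]
    simp

theorem prod_wo {p q : ℝ} {k : ℕ} {Λ : Finset Site} {z : Fin k → Site}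
    (hz : Function.Injective z) (hzΛ : ∀ i, z i ∈ Λ) (clr : Fin k → Color) :
    (∏ w : Λ, wo p q (Finset.restrict Λ (seedOf z clr) w)) =
      (∏ i, wt p q (clr i)) * (1 - 2 * p - q) ^ (Λ.card - k) := by
  classical
  rw [← Finset.prod_mul_prod_compl (supp (Finset.restrict Λ (seedOf z clr)))]
  congr 1
  · rw [supp_restrict hz hzΛ, Finset.prod_map]
    refine Finset.prod_congr rfl fun i _ => ?_
    rw [restrict_apply hz hzΛ]
    rfl
  · rw [Finset.prod_congr rfl (g := fun _ => 1 - 2 * p - q), Finset.prod_const]
    · congr 1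
      rw [Finset.card_compl, supp_restrict hz hzΛ, Finset.card_map, Finset.card_univ,
        Fintype.card_fin, Fintype.card_coe]
    · intro w hw
      rw [Finset.mem_compl, mem_supp, not_not] at hw
      rw [hw]
      rfl

theorem ext_restrict {k : ℕ} {Λ : Finset Site} {z : Fin k → Site}
    (hzΛ : ∀ i, z i ∈ Λ) (clr : Fin k → Color) :
    ext Λ (Finset.restrict Λ (seedOf z clr)) = seedOf z clr := by
  funext w
  unfold ext
  split_ifs with h
  · rfl
  · rw [seedOf_none]
    rintro i rfl
    exact h (hzΛ i)

open Classical in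
/-- Pairs of a colouring of the indices and an injective placement in `Λ`. -/
noncomputable def pairs (k : ℕ) (Λ : Finset Site) : Finset ((Fin k → Color) × (Fin k → Site)) :=
  (Finset.univ ×ˢ Fintype.piFinset (fun _ : Fin k => Λ)).filter fun x => Function.Injective x.2

theorem mem_pairs {k : ℕ} {Λ : Finset Site} {x : (Fin k → Color) × (Fin k → Site)} :
    x ∈ pairs k Λ ↔ (∀ i, x.2 i ∈ Λ) ∧ Function.Injective x.2 := by
  simp [pairs]

open Classical in
theorem card_fibre {k : ℕ} {Λ : Finset Site} (σ : Λ → Option Color) :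
    ((pairs k Λ).filter fun x => Finset.restrict Λ (seedOf x.2 x.1) = σ).card =
      if (supp σ).card = k then k.factorial else 0 := by
  split_ifs with hk
  · have hcard : Fintype.card (Fin k ≃ supp σ) = k.factorial := by
      have e0 : Fin k ≃ supp σ := (Finset.equivFinOfCardEq hk).symm
      rw [Fintype.card_equiv e0, Fintype.card_fin]
    rw [← hcard, ← Finset.card_univ]
    symm
    refine Finset.card_bij
      (fun (e : Fin k ≃ supp σ) _ => ((fun i => (σ (e i).1).getD Color.blue,
        fun i => ((e i).1 : Site)) : (Fin k → Color) × (Fin k → Site))) ?_ ?_ ?_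
    · intro e _
      rw [Finset.mem_filter, mem_pairs]
      have hinj : Function.Injective fun i => ((e i).1 : Site) := by
        intro i j hij
        exact e.injective (Subtype.ext (Subtype.ext hij))
      refine ⟨⟨fun i => (e i).1.2, hinj⟩, ?_⟩
      funext w
      simp only [Finset.restrict_def]
      by_cases hw : w ∈ supp σ
      · have h1 : ((e (e.symm ⟨w, hw⟩)).1 : Site) = w := by simp
        have h2 := seedOf_apply hinj (fun i => (σ (e i).1).getD Color.blue) (e.symm ⟨w, hw⟩)
        simp only [Equiv.apply_symm_apply] at h2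
        rw [h2]
        rw [mem_supp] at hw
        obtain ⟨c, hc⟩ := Option.ne_none_iff_exists'.1 hw
        rw [hc]
        rfl
      · rw [seedOf_none]
        · rw [mem_supp, not_not] at hw
          exact hw.symm
        · intro i hi
          apply hw
          have : (e i).1 = w := Subtype.ext hi
          rw [← this]
          exact (e i).2
    · intro e _ e' _ h
      have h2 := congrArg Prod.snd h
      simp only at h2
      apply Equiv.ext
      intro i
      exact Subtype.ext (Subtype.ext (congrFun h2 i))
    · rintro ⟨clr, z⟩ hx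
      rw [Finset.mem_filter, mem_pairs] at hx
      obtain ⟨⟨hzΛ, hz⟩, hσ⟩ := hx
      simp only at hzΛ hz hσ
      have hs : ∀ i, (⟨z i, hzΛ i⟩ : Λ) ∈ supp σ := by
        intro i
        have h5 := restrict_apply hz hzΛ clr i
        rw [hσ] at h5
        rw [mem_supp]
        change σ ⟨z i, hzΛ i⟩ = _ at h5
        rw [h5]
        simp
      let g : Fin k → supp σ := fun i => ⟨⟨z i, hzΛ i⟩, hs i⟩
      have hg : Function.Bijective g := by
        constructor
        · intro i j hij
          exact hz (Subtype.ext_iff.1 (Subtype.ext_iff.1 hij))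
        · rintro ⟨w, hw⟩
          have hw' := hw
          rw [← hσ, supp_restrict hz hzΛ, Finset.mem_map] at hw'
          obtain ⟨i, -, hi⟩ := hw'
          exact ⟨i, Subtype.ext hi⟩
      refine ⟨Equiv.ofBijective g hg, Finset.mem_univ _, ?_⟩
      refine Prod.ext ?_ ?_
      · funext i
        simp only [Equiv.ofBijective_apply, g]
        have : σ ⟨z i, hzΛ i⟩ = some (clr i) := by
          have h5 := restrict_apply hz hzΛ clr i
          rw [hσ] at h5
          exact h5
        rw [this]
        rfl
      · funext i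
        simp [g]
  · rw [Finset.card_eq_zero, Finset.filter_eq_empty_iff]
    rintro ⟨clr, z⟩ hx hσ
    rw [mem_pairs] at hx
    apply hk
    rw [← hσ, supp_restrict hx.2 hx.1, Finset.card_map, Finset.card_univ, Fintype.card_fin]

end Expansion

open Expansion in
open Classical in
theorem expansion {p q : ℝ} (hp : 0 ≤ p) (hq : 0 ≤ q) (hpq : 2 * p + q ≤ 1) (Λ : Finset Site)
    (F : (Site → Option Color) → ℝ)
    (hF : ∀ s s' : Site → Option Color, (∀ z ∈ Λ, s z = s' z) → F s = F s') :
    ∫ s, F s ∂(Measure.infinitePi fun _ : Site => siteLaw p q) =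
      ∑ k ∈ Finset.range (Λ.card + 1), (1 / (k.factorial : ℝ)) *
        ∑ clr : Fin k → Color, ∑ z ∈ Fintype.piFinset (fun _ : Fin k => Λ),
          if Function.Injective z then
            (∏ i, wt p q (clr i)) * (1 - 2 * p - q) ^ (Λ.card - k) * F (seedOf z clr)
          else 0 := by
  rw [integral_eq hp hq hpq Λ F hF]
  have key : ∀ k : ℕ, (∑ clr : Fin k → Color, ∑ z ∈ Fintype.piFinset (fun _ : Fin k => Λ),
          if Function.Injective z then
            (∏ i, wt p q (clr i)) * (1 - 2 * p - q) ^ (Λ.card - k) * F (seedOf z clr)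
          else 0) = ∑ σ : Λ → Option Color,
            (if (supp σ).card = k then (k.factorial : ℝ) else 0) *
              ((∏ w, wo p q (σ w)) * F (ext Λ σ)) := by
    intro k
    rw [← Finset.sum_product']
    rw [← Finset.sum_filter]
    have h1 : ∀ x ∈ pairs k Λ, (∏ i, wt p q (x.1 i)) * (1 - 2 * p - q) ^ (Λ.card - k) *
        F (seedOf x.2 x.1) = (fun σ : Λ → Option Color => (∏ w, wo p q (σ w)) * F (ext Λ σ))
          (Finset.restrict Λ (seedOf x.2 x.1)) := by
      intro x hx
      rw [mem_pairs] at hx
      simp only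
      rw [prod_wo hx.2 hx.1, ext_restrict hx.1]
    have h2 := Finset.sum_congr (rfl : pairs k Λ = pairs k Λ) h1
    refine Eq.trans h2 ?_
    rw [← Finset.sum_fiberwise' (pairs k Λ) (fun x => Finset.restrict Λ (seedOf x.2 x.1))
      (fun σ : Λ → Option Color => (∏ w, wo p q (σ w)) * F (ext Λ σ))]
    refine Finset.sum_congr rfl fun σ _ => ?_
    rw [Finset.sum_const, nsmul_eq_mul, card_fibre σ]
    push_cast
    rfl
  simp only [key]
  simp only [Finset.mul_sum]
  rw [Finset.sum_comm]
  refine Finset.sum_congr rfl fun σ _ => ?_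
  rw [Finset.sum_eq_single (supp σ).card]
  · rw [if_pos rfl]
    have : ((supp σ).card.factorial : ℝ) ≠ 0 := by positivity
    field_simp
  · intro k _ hk
    rw [if_neg (Ne.symm hk)]
    ring
  · intro hk
    exfalso
    apply hk
    rw [Finset.mem_range]
    have := Finset.card_le_univ (supp σ)
    rw [Fintype.card_coe] at this
    omega

end Pool.Agent.Helper69.TC
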