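import Pool.Agent.Helper69.TC.Symm

/-!
A lattice sum as an integral.
-/

set_option autoImplicit false

open MeasureTheory Filter Topology

namespace Pool.Agent.Helper69.TC

/-- The half-open square of side `ε` with index `a`. -/
def cell (ε : ℝ) (a : Site) : Set (ℝ × ℝ) :=
  Set.Ico ((a.1 : ℝ) * ε) (((a.1 : ℝ) + 1) * ε) ×ˢ Set.Ico ((a.2 : ℝ) * ε) (((a.2 : ℝ) + 1) * ε)

theorem floorPos_eq_iff {ε : ℝ} (hε : 0 < ε) {k : ℕ} (x : Fin k → ℝ × ℝ) (z : Fin k → Site) :
    floorPos ε x = z ↔ x ∈ Set.pi Set.univ (fun i => cell ε (z i)) := by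
  simp only [Set.mem_pi, Set.mem_univ, true_imp_iff, cell, Set.mem_prod, Set.mem_Ico]
  have key : ∀ (u : ℝ) (a : ℤ), ⌊u / ε⌋ = a ↔ (a : ℝ) * ε ≤ u ∧ u < ((a : ℝ) + 1) * ε := by
    intro u a
    rw [Int.floor_eq_iff, le_div_iff₀ hε, div_lt_iff₀ hε]
  constructor
  · rintro rfl i
    exact ⟨(key _ _).1 rfl, (key _ _).1 rfl⟩
  · intro h
    funext i
    exact Prod.ext ((key _ _).2 (h i).1) ((key _ _).2 (h i).2)

theorem measurableSet_cell (ε : ℝ) (a : Site) : MeasurableSet (cell ε a) :=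
  measurableSet_Ico.prod measurableSet_Ico

theorem volume_cell {ε : ℝ} (hε : 0 < ε) (a : Site) :
    volume (cell ε a) = ENNReal.ofReal (ε ^ 2) := by
  unfold cell
  rw [Measure.volume_eq_prod, Measure.prod_prod, Real.volume_Ico, Real.volume_Ico]
  rw [← ENNReal.ofReal_mul (by nlinarith)]
  congr 1
  ring

theorem volume_floorPos {ε : ℝ} (hε : 0 < ε) {k : ℕ} (z : Fin k → Site) :
    volume {x : Fin k → ℝ × ℝ | floorPos ε x = z} = ENNReal.ofReal ((ε ^ 2) ^ k) := by
  have h1 : {x : Fin k → ℝ × ℝ | floorPos ε x = z} = Set.pi Set.univ (fun i => cell ε (z i)) := by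
    ext x
    exact floorPos_eq_iff hε x z
  rw [h1, volume_pi_pi]
  rw [Finset.prod_congr rfl (fun i _ => volume_cell hε (z i)), Finset.prod_const,
    Finset.card_univ, Fintype.card_fin]
  exact (ENNReal.ofReal_pow (by positivity) k).symm

theorem measurableSet_floorPos {ε : ℝ} (hε : 0 < ε) {k : ℕ} (z : Fin k → Site) :
    MeasurableSet {x : Fin k → ℝ × ℝ | floorPos ε x = z} := by
  have h1 : {x : Fin k → ℝ × ℝ | floorPos ε x = z} = Set.pi Set.univ (fun i => cell ε (z i)) := by
    ext x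
    exact floorPos_eq_iff hε x z
  rw [h1]
  exact MeasurableSet.pi Set.countable_univ (fun i _ => measurableSet_cell ε (z i))

open Classical in
theorem sum_eq_integral {ε : ℝ} (hε : 0 < ε) (k : ℕ) (Λ : Finset Site) (H : (Fin k → Site) → ℝ) :
    (ε ^ 2) ^ k * ∑ z ∈ Fintype.piFinset (fun _ : Fin k => Λ), H z =
      ∫ x : Fin k → ℝ × ℝ, if (∀ i, floorPos ε x i ∈ Λ) then H (floorPos ε x) else 0 := by
  have h1 : (fun x : Fin k → ℝ × ℝ =>
      if (∀ i, floorPos ε x i ∈ Λ) then H (floorPos ε x) else 0) =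
      fun x => ∑ z ∈ Fintype.piFinset (fun _ : Fin k => Λ),
        Set.indicator {x : Fin k → ℝ × ℝ | floorPos ε x = z} (fun _ => H z) x := by
    funext x
    simp only [Set.indicator_apply, Set.mem_ofPred_eq]
    rw [Finset.sum_ite_eq]
    simp only [Fintype.mem_piFinset]
  rw [h1, integral_finsetSum]
  · rw [Finset.mul_sum]
    refine Finset.sum_congr rfl fun z _ => ?_
    rw [integral_indicator_const _ (measurableSet_floorPos hε z)]
    rw [measureReal_def, volume_floorPos hε, ENNReal.toReal_ofReal (by positivity), smul_eq_mul]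
  · intro z _
    rw [integrable_indicator_iff (measurableSet_floorPos hε z)]
    refine integrableOn_const ?_ (by simp)
    rw [volume_floorPos hε]
    exact ENNReal.ofReal_ne_top

end Pool.Agent.Helper69.TC
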