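import Pool.Agent.Helper75.TC.Expansion
import Pool.Agent.Helper75.TC.SumIntegral

/-!
Convergence of the probability that the origin is green by a fixed scaled time: auxiliary lemmas.
-/

set_option autoImplicit false

open MeasureTheory Filter Topology

namespace Pool.Agent.Helper69.TC

namespace FiniteTime

/-- The law of the tie-breaking rankings. -/
noncomputable def tie : Measure (Site × ℕ → Ranking) :=
  Measure.infinitePi fun _ : Site × ℕ => tieLaw

instance : IsProbabilityMeasure tieLaw := by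
  unfold tieLaw
  infer_instance

instance : IsProbabilityMeasure tie := by
  unfold tie
  infer_instance

/-- Probability, given the seeds, that the origin is green at time `n`. -/
noncomputable def Φ (n : ℕ) (s : Site → Option Color) : ℝ :=
  tie.real {r | run s r n (0, 0) = some Color.green}

theorem Φ_nonneg (n : ℕ) (s : Site → Option Color) : 0 ≤ Φ n s := measureReal_nonneg

theorem Φ_le_one (n : ℕ) (s : Site → Option Color) : Φ n s ≤ 1 := measureReal_le_one

theorem mem_box {n : ℕ} {z : Site} : z ∈ box n ↔ z.1.natAbs ≤ n ∧ z.2.natAbs ≤ n := by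
  unfold box
  rw [Finset.mem_product, Finset.mem_Icc, Finset.mem_Icc]
  omega

theorem card_box (n : ℕ) : (box n).card = (2 * n + 1) ^ 2 := by
  unfold box
  rw [Finset.card_product, Int.card_Icc]
  have : ((n : ℤ) + 1 - -(n : ℤ)).toNat = 2 * n + 1 := by omega
  rw [this]
  ring

theorem Φ_congr (n : ℕ) (s s' : Site → Option Color) (h : ∀ z ∈ box n, s z = s' z) :
    Φ n s = Φ n s' := by
  unfold Φ
  congr 1
  ext r
  show run s r n (0, 0) = some Color.green ↔ run s' r n (0, 0) = some Color.green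
  rw [run_congr (s0 := s) (s0' := s') (r := r) (r' := r) n (0, 0)]
  · intro y hy
    apply h
    rw [mem_box]
    unfold dist1 at hy
    simp only [sub_zero] at hy
    omega
  · intros
    rfl

theorem greenBy_iff {p K : ℝ} (hK : 0 < K) (ω : (Site → Option Color) × (Site × ℕ → Ranking)) :
    GreenBy p K ω ↔ run ω.1 ω.2 ⌊K / √p⌋₊ (0, 0) = some Color.green := by
  have h0 : 0 ≤ K / √p := by positivity
  constructor
  · rintro ⟨n, hn, h⟩
    exact run_mono (Nat.le_floor hn) h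
  · intro h
    exact ⟨_, Nat.floor_le h0, h⟩

theorem law_greenBy {p q K : ℝ} (hp : 0 ≤ p) (hq : 0 ≤ q) (hpq : 2 * p + q ≤ 1) (hK : 0 < K) :
    (law p q).real {ω | GreenBy p K ω} =
      ∫ s, Φ ⌊K / √p⌋₊ s ∂(Measure.infinitePi fun _ : Site => siteLaw p q) := by
  have := Expansion.isProb_site hp hq hpq
  have h1 : {ω | GreenBy p K ω} =
      {ω : (Site → Option Color) × (Site × ℕ → Ranking) |
        run ω.1 ω.2 ⌊K / √p⌋₊ (0, 0) = some Color.green} := by
    ext ω
    exact greenBy_iff hK ω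
  have hmeas : MeasurableSet {ω : (Site → Option Color) × (Site × ℕ → Ranking) |
        run ω.1 ω.2 ⌊K / √p⌋₊ (0, 0) = some Color.green} :=
    measurable_run ⌊K / √p⌋₊ (0, 0) (MeasurableSet.of_discrete (s := {some Color.green}))
  rw [h1, measureReal_def]
  unfold law
  have htie : (Measure.infinitePi fun _ : Site × ℕ => tieLaw) = tie := rfl
  rw [htie, Measure.prod_apply hmeas]
  unfold Φ
  simp only [measureReal_def]
  rw [integral_toReal]
  · rfl
  · exact (measurable_measure_prodMk_left hmeas).aemeasurable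
  · exact Eventually.of_forall fun s => measure_lt_top _ _

theorem tendsto_pow_exp {α : Type*} {l : Filter α} {u : α → ℝ} {m : α → ℕ} {a : ℝ}
    (hu : Tendsto u l (𝓝[>] 0)) (hm : Tendsto (fun x => (m x : ℝ) * u x) l (𝓝 a)) :
    Tendsto (fun x => (1 - u x) ^ (m x)) l (𝓝 (Real.exp (-a))) := by
  have hu0 : Tendsto u l (𝓝 0) := hu.mono_right nhdsWithin_le_nhds
  have hpos : ∀ᶠ x in l, 0 < u x := hu.eventually self_mem_nhdsWithin
  have hlt : ∀ᶠ x in l, u x < 1 := hu0.eventually (gt_mem_nhds zero_lt_one)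
  have hlog : Tendsto (fun x => Real.log (1 - u x) / u x) l (𝓝 (-1)) := by
    have h1 : HasDerivAt (fun t : ℝ => Real.log (1 - t)) (-1) 0 := by
      have h2 : HasDerivAt (fun t : ℝ => 1 - t) (-1) 0 := by
        simpa using (hasDerivAt_id (0 : ℝ)).const_sub 1
      have h3 := h2.log (by norm_num)
      simpa using h3
    rw [hasDerivAt_iff_tendsto_slope] at h1
    have h4 : Tendsto u l (𝓝[≠] 0) :=
      hu.mono_right (nhdsWithin_mono _ (fun x hx => ne_of_gt hx))
    refine (h1.comp h4).congr ?_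
    intro x
    simp [slope_def_field]
  have hprod := hm.mul hlog
  have hexp := (Real.continuous_exp.tendsto _).comp hprod
  rw [show a * -1 = -a by ring] at hexp
  refine hexp.congr' ?_
  filter_upwards [hpos, hlt] with x h1 h2
  simp only [Function.comp]
  rw [show (m x : ℝ) * u x * (Real.log (1 - u x) / u x) = m x * Real.log (1 - u x) by
    field_simp]
  rw [mul_comm, Real.exp_mul, Real.exp_log (by linarith), Real.rpow_natCast]

theorem tendsto_floor {K : ℝ} (hK : 0 < K) :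
    Tendsto (fun ε : ℝ => (⌊K / ε⌋₊ : ℝ) * ε) (𝓝[>] 0) (𝓝 K) := by
  have h1 : Tendsto (fun ε : ℝ => K - ε) (𝓝[>] 0) (𝓝 K) := by
    have : Tendsto (fun ε : ℝ => K - ε) (𝓝 0) (𝓝 (K - 0)) :=
      tendsto_const_nhds.sub tendsto_id
    rw [sub_zero] at this
    exact this.mono_left nhdsWithin_le_nhds
  refine tendsto_of_tendsto_of_tendsto_of_le_of_le' h1 tendsto_const_nhds ?_ ?_
  · filter_upwards [self_mem_nhdsWithin] with ε hε
    have hε' : 0 < ε := hε
    have h2 := Nat.lt_floor_add_one (K / ε)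
    rw [div_lt_iff₀ hε'] at h2
    linarith
  · filter_upwards [self_mem_nhdsWithin] with ε hε
    have hε' : 0 < ε := hε
    have h2 := Nat.floor_le (show 0 ≤ K / ε by positivity)
    rw [le_div_iff₀ hε'] at h2
    exact h2

theorem tendsto_card {K c : ℝ} (hK : 0 < K) (hc : 0 < c) (k : ℕ) :
    Tendsto (fun ε : ℝ => (1 - (2 + c) * ε ^ 2) ^ ((2 * ⌊K / ε⌋₊ + 1) ^ 2 - k)) (𝓝[>] 0)
      (𝓝 (Real.exp (-((2 + c) * (4 * K ^ 2))))) := by
  have hid : Tendsto (fun ε : ℝ => ε) (𝓝[>] 0) (𝓝 0) := nhdsWithin_le_nhds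
  apply tendsto_pow_exp
  · rw [tendsto_nhdsWithin_iff]
    constructor
    · have : Tendsto (fun ε : ℝ => (2 + c) * ε ^ 2) (𝓝[>] 0) (𝓝 ((2 + c) * 0 ^ 2)) :=
        tendsto_const_nhds.mul (hid.pow 2)
      simpa using this
    · filter_upwards [self_mem_nhdsWithin] with ε hε
      have hε' : 0 < ε := hε
      show 0 < (2 + c) * ε ^ 2
      positivity
  · have hf := tendsto_floor hK
    have h1 : Tendsto (fun ε : ℝ => (2 * ((⌊K / ε⌋₊ : ℝ) * ε) + ε) ^ 2 - k * ε ^ 2) (𝓝[>] 0)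
        (𝓝 ((2 * K + 0) ^ 2 - k * 0 ^ 2)) :=
      (((hf.const_mul 2).add hid).pow 2).sub ((hid.pow 2).const_mul _)
    have h2 := h1.const_mul (2 + c)
    rw [show (2 + c) * ((2 * K + 0) ^ 2 - k * 0 ^ 2) = (2 + c) * (4 * K ^ 2) by ring] at h2
    refine h2.congr' ?_
    have hlarge : ∀ᶠ ε : ℝ in 𝓝[>] 0, k ≤ (2 * ⌊K / ε⌋₊ + 1) ^ 2 := by
      have h3 : Tendsto (fun ε : ℝ => K / ε) (𝓝[>] 0) atTop := by
        have := tendsto_inv_nhdsGT_zero (𝕜 := ℝ)
        exact (this.const_mul_atTop hK)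
      have h4 := tendsto_nat_floor_atTop.comp h3
      filter_upwards [h4.eventually_ge_atTop k] with ε hε
      have : k ≤ ⌊K / ε⌋₊ := hε
      nlinarith
    filter_upwards [hlarge] with ε hε
    rw [Nat.cast_sub hε]
    push_cast
    ring


open Classical in
/-- Integrand of the `k`-th term. -/
noncomputable def G (K : ℝ) {k : ℕ} (clr : Fin k → Color) (ε : ℝ) (x : Fin k → ℝ × ℝ) : ℝ :=
  if (∀ i, floorPos ε x i ∈ box ⌊K / ε⌋₊) then
    (if Function.Injective (floorPos ε x) then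
      Φ ⌊K / ε⌋₊ (seedOf (floorPos ε x) clr) else 0) else 0

theorem measurable_floorPos (ε : ℝ) (k : ℕ) :
    Measurable (floorPos ε : (Fin k → ℝ × ℝ) → (Fin k → Site)) := by
  refine measurable_pi_lambda _ fun i => ?_
  unfold floorPos
  refine Measurable.prodMk ?_ ?_
  · exact Measurable.floor (((measurable_pi_apply i).fst).div_const ε)
  · exact Measurable.floor (((measurable_pi_apply i).snd).div_const ε)

open Classical in
theorem measurable_G (K : ℝ) {k : ℕ} (clr : Fin k → Color) (ε : ℝ) :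
    Measurable (G K clr ε) := by
  let H : (Fin k → Site) → ℝ := fun z =>
    if (∀ i, z i ∈ box ⌊K / ε⌋₊) then
      (if Function.Injective z then Φ ⌊K / ε⌋₊ (seedOf z clr) else 0) else 0
  have hH : Measurable H := measurable_of_countable H
  exact hH.comp (measurable_floorPos ε k)

/-- The dominating box. -/
def big (K : ℝ) (k : ℕ) : Set (Fin k → ℝ × ℝ) :=
  Set.pi Set.univ fun _ => Set.Icc (-(K + 1)) (K + 1) ×ˢ Set.Icc (-(K + 1)) (K + 1)

theorem measurableSet_big (K : ℝ) (k : ℕ) : MeasurableSet (big K k) :=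
  MeasurableSet.pi Set.countable_univ fun _ _ => measurableSet_Icc.prod measurableSet_Icc

theorem volume_big {K : ℝ} (hK : 0 < K) (k : ℕ) :
    volume (big K k) = ENNReal.ofReal (((2 * K + 2) ^ 2) ^ k) := by
  unfold big
  rw [volume_pi_pi]
  have h1 : volume (Set.Icc (-(K + 1)) (K + 1) ×ˢ Set.Icc (-(K + 1)) (K + 1)) =
      ENNReal.ofReal ((2 * K + 2) ^ 2) := by
    rw [Measure.volume_eq_prod, Measure.prod_prod, Real.volume_Icc,
      ← ENNReal.ofReal_mul (by linarith)]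
    congr 1
    ring
  rw [Finset.prod_congr rfl (fun i _ => h1), Finset.prod_const, Finset.card_univ,
    Fintype.card_fin]
  exact (ENNReal.ofReal_pow (by positivity) k).symm

theorem floor_bound {K ε u : ℝ} (hK : 0 < K) (hε : 0 < ε) (hε1 : ε ≤ 1)
    (h : ⌊u / ε⌋.natAbs ≤ ⌊K / ε⌋₊) : u ∈ Set.Icc (-(K + 1)) (K + 1) := by
  have h1 : (⌊u / ε⌋ : ℤ) ≤ ⌊K / ε⌋₊ := by omega
  have h2 : -(⌊K / ε⌋₊ : ℤ) ≤ ⌊u / ε⌋ := by omega
  have h1' : (⌊u / ε⌋ : ℝ) ≤ ⌊K / ε⌋₊ := by exact_mod_cast h1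
  have h2' : -(⌊K / ε⌋₊ : ℝ) ≤ ⌊u / ε⌋ := by exact_mod_cast h2
  have h3 := Nat.floor_le (show 0 ≤ K / ε by positivity)
  have h4 := Int.floor_le (u / ε)
  have h5 := Int.lt_floor_add_one (u / ε)
  constructor
  · have h6 : -(K / ε) ≤ u / ε := by linarith
    rw [← neg_div, div_le_div_iff_of_pos_right hε] at h6
    linarith
  · have h6 : u / ε < K / ε + 1 := by linarith
    have h7 : u / ε < (K + ε) / ε := by
      rw [add_div, div_self hε.ne']
      exact h6
    rw [div_lt_div_iff_of_pos_right hε] at h7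
    linarith

theorem G_bound {K : ℝ} (hK : 0 < K) {k : ℕ} (clr : Fin k → Color) {ε : ℝ} (hε : 0 < ε)
    (hε1 : ε ≤ 1) (x : Fin k → ℝ × ℝ) :
    ‖G K clr ε x‖ ≤ (big K k).indicator (fun _ => (1 : ℝ)) x := by
  unfold G
  split_ifs with h1 h2
  · have hx : x ∈ big K k := by
      intro i _
      have := h1 i
      rw [mem_box] at this
      exact ⟨floor_bound hK hε hε1 this.1, floor_bound hK hε hε1 this.2⟩
    rw [Set.indicator_of_mem hx, Real.norm_eq_abs, abs_of_nonneg (Φ_nonneg _ _)]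
    exact Φ_le_one _ _
  · rw [norm_zero]
    exact Set.indicator_nonneg (fun _ _ => zero_le_one) x
  · rw [norm_zero]
    exact Set.indicator_nonneg (fun _ _ => zero_le_one) x

theorem G_nonneg (K : ℝ) {k : ℕ} (clr : Fin k → Color) (ε : ℝ) (x : Fin k → ℝ × ℝ) :
    0 ≤ G K clr ε x := by
  unfold G
  split_ifs
  · exact Φ_nonneg _ _
  · exact le_rfl
  · exact le_rfl

theorem integrable_big {K : ℝ} (hK : 0 < K) (k : ℕ) :
    Integrable ((big K k).indicator (fun _ => (1 : ℝ))) (volume : Measure (Fin k → ℝ × ℝ)) := by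
  rw [integrable_indicator_iff (measurableSet_big K k)]
  refine integrableOn_const ?_ (by simp)
  rw [volume_big hK]
  exact ENNReal.ofReal_ne_top

theorem integral_G_le {K : ℝ} (hK : 0 < K) {k : ℕ} (clr : Fin k → Color) {ε : ℝ} (hε : 0 < ε)
    (hε1 : ε ≤ 1) : ∫ x, G K clr ε x ≤ ((2 * K + 2) ^ 2) ^ k := by
  have h1 : ∫ x, G K clr ε x ≤ ∫ x, (big K k).indicator (fun _ => (1 : ℝ)) x := by
    refine integral_mono_of_nonneg (Eventually.of_forall fun x => G_nonneg K clr ε x)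
      (integrable_big hK k) (Eventually.of_forall fun x => ?_)
    have := G_bound hK clr hε hε1 x
    rw [Real.norm_eq_abs] at this
    exact (le_abs_self _).trans this
  refine h1.trans (le_of_eq ?_)
  rw [integral_indicator_const _ (measurableSet_big K k), measureReal_def, volume_big hK,
    ENNReal.toReal_ofReal (by positivity), smul_eq_mul, mul_one]

theorem eventually_floor {K u : ℝ} (hK : 0 < K) (hu : |u| ≠ K) :
    ∃ b : Prop, ∀ᶠ ε : ℝ in 𝓝[>] 0, (⌊u / ε⌋.natAbs ≤ ⌊K / ε⌋₊ ↔ b) := by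
  refine ⟨|u| < K, ?_⟩
  have hd : 0 < abs (K - |u|) / 2 := by
    have : K - |u| ≠ 0 := sub_ne_zero.2 (Ne.symm hu)
    positivity
  have hsmall : ∀ᶠ ε : ℝ in 𝓝[>] 0, ε < abs (K - |u|) / 2 :=
    nhdsWithin_le_nhds (Iio_mem_nhds hd)
  filter_upwards [self_mem_nhdsWithin, hsmall] with ε hε hs
  have hε' : 0 < ε := hε
  have h3 := Nat.floor_le (show 0 ≤ K / ε by positivity)
  have h3' := Nat.lt_floor_add_one (K / ε)
  have h4 := Int.floor_le (u / ε)
  have h5 := Int.lt_floor_add_one (u / ε)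
  rw [lt_div_iff₀ (by norm_num : (0 : ℝ) < 2)] at hs
  constructor
  · intro h
    by_contra hcon
    push Not at hcon
    have hlt : K < |u| := lt_of_le_of_ne hcon (Ne.symm hu)
    rw [abs_of_neg (by linarith : K - |u| < 0)] at hs
    have h1 : (⌊u / ε⌋ : ℤ) ≤ ⌊K / ε⌋₊ := by omega
    have h2 : -(⌊K / ε⌋₊ : ℤ) ≤ ⌊u / ε⌋ := by omega
    have h1' : (⌊u / ε⌋ : ℝ) ≤ ⌊K / ε⌋₊ := by exact_mod_cast h1
    have h2' : -(⌊K / ε⌋₊ : ℝ) ≤ ⌊u / ε⌋ := by exact_mod_cast h2
    rcases le_total 0 u with h0 | h0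
    · rw [abs_of_nonneg h0] at hs hlt
      have h6 : u / ε < K / ε + 1 := by linarith
      have h7 : u / ε < (K + ε) / ε := by
        rw [add_div, div_self hε'.ne']
        exact h6
      rw [div_lt_div_iff_of_pos_right hε'] at h7
      linarith
    · rw [abs_of_nonpos h0] at hs hlt
      have h6 : -(K / ε) ≤ u / ε := by linarith
      rw [← neg_div, div_le_div_iff_of_pos_right hε'] at h6
      linarith
  · intro h
    rw [abs_of_pos (by linarith : 0 < K - |u|)] at hs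
    have hu1 := neg_abs_le u
    have hu2 := le_abs_self u
    have h6 : u / ε < K / ε - 2 := by
      rw [lt_sub_iff_add_lt, ← lt_sub_iff_add_lt', ← sub_div, lt_div_iff₀ hε']
      linarith
    have h7 : -(K / ε) + 2 < u / ε := by
      rw [← sub_pos]
      have : u / ε - (-(K / ε) + 2) = (u + K - 2 * ε) / ε := by
        field_simp
        ring
      rw [this]
      apply div_pos _ hε'
      linarith
    have h8 : ((⌊u / ε⌋ : ℤ) : ℝ) < ((⌊K / ε⌋₊ : ℤ) : ℝ) := by
      push_cast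
      linarith
    have h9 : ((-(⌊K / ε⌋₊ : ℤ) : ℤ) : ℝ) < ((⌊u / ε⌋ : ℤ) : ℝ) := by
      push_cast
      linarith
    have h8' : (⌊u / ε⌋ : ℤ) < ⌊K / ε⌋₊ := by exact_mod_cast h8
    have h9' : -(⌊K / ε⌋₊ : ℤ) < ⌊u / ε⌋ := by exact_mod_cast h9
    omega

theorem eventually_inj {K : ℝ} {k : ℕ} {x : Fin k → ℝ × ℝ} (hx : Gen K x) :
    ∀ᶠ ε : ℝ in 𝓝[>] 0, Function.Injective (floorPos ε x) := by
  have hpair : ∀ i j : Fin k, i ≠ j → ∀ᶠ ε : ℝ in 𝓝[>] 0, floorPos ε x i ≠ floorPos ε x j := by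
    intro i j hij
    have h1 : (x i).1 ≠ (x j).1 := by
      have := hx.ix (some i) (some j) (by simpa using hij)
      exact this
    have hd : 0 < |(x i).1 - (x j).1| := abs_pos.2 (sub_ne_zero.2 h1)
    have hsmall : ∀ᶠ ε : ℝ in 𝓝[>] 0, ε < |(x i).1 - (x j).1| :=
      nhdsWithin_le_nhds (Iio_mem_nhds hd)
    filter_upwards [self_mem_nhdsWithin, hsmall] with ε hε hs heq
    have hε' : 0 < ε := hε
    have h2 : ⌊(x i).1 / ε⌋ = ⌊(x j).1 / ε⌋ := congrArg Prod.fst heq
    have h3 := Int.abs_sub_lt_one_of_floor_eq_floor h2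
    rw [← sub_div, abs_div, abs_of_pos hε', div_lt_one hε'] at h3
    linarith
  have hall : ∀ᶠ ε : ℝ in 𝓝[>] 0, ∀ i j : Fin k, i ≠ j → floorPos ε x i ≠ floorPos ε x j := by
    rw [eventually_all]
    intro i
    rw [eventually_all]
    intro j
    by_cases hij : i = j
    · exact Eventually.of_forall fun _ h => absurd hij h
    · filter_upwards [hpair i j hij] with ε h _
      exact h
  filter_upwards [hall] with ε h i j hij
  by_contra hne
  exact h i j hne hij

theorem eventually_Φ {K : ℝ} (hK : 0 < K) {k : ℕ} {x : Fin k → ℝ × ℝ} {clr : Fin k → Color}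
    (hev : ∃ b : Prop, ∀ᶠ ε : ℝ in 𝓝[>] 0, ∀ A : Site → Color → ℕ → Prop,
      Growth (seedOf (floorPos ε x) clr) A →
      ((∃ n : ℕ, (n : ℝ) ≤ K / ε ∧ A (0, 0) Color.green n) ↔ b)) :
    ∃ v : ℝ, ∀ᶠ ε : ℝ in 𝓝[>] 0, Φ ⌊K / ε⌋₊ (seedOf (floorPos ε x) clr) = v := by
  obtain ⟨b, hb⟩ := hev
  refine ⟨tie.real {_r | b}, ?_⟩
  filter_upwards [self_mem_nhdsWithin, hb] with ε hε h
  have hε' : 0 < ε := hε
  unfold Φ
  congr 1
  ext r
  show run _ r _ (0, 0) = some Color.green ↔ b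
  rw [run_eq_some_iff, ← h _ (growth_run _ r)]
  constructor
  · rintro ⟨m, hm, hcol⟩
    exact ⟨m, (Nat.le_floor_iff (by positivity)).1 hm, hcol⟩
  · rintro ⟨m, hm, hcol⟩
    exact ⟨m, (Nat.le_floor_iff (by positivity)).2 hm, hcol⟩

theorem eventually_G {K : ℝ} (hK : 0 < K) {k : ℕ} {x : Fin k → ℝ × ℝ} (hx : Gen K x)
    {clr : Fin k → Color}
    (hev : ∃ b : Prop, ∀ᶠ ε : ℝ in 𝓝[>] 0, ∀ A : Site → Color → ℕ → Prop,
      Growth (seedOf (floorPos ε x) clr) A →
      ((∃ n : ℕ, (n : ℝ) ≤ K / ε ∧ A (0, 0) Color.green n) ↔ b)) :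
    ∃ v : ℝ, ∀ᶠ ε : ℝ in 𝓝[>] 0, G K clr ε x = v := by
  classical
  obtain ⟨v, hv⟩ := eventually_Φ hK hev
  have hX := fun i => eventually_floor hK (hx.horx i)
  have hY := fun i => eventually_floor hK (hx.hory i)
  choose bX hbX using hX
  choose bY hbY using hY
  refine ⟨if (∀ i, bX i ∧ bY i) then v else 0, ?_⟩
  filter_upwards [hv, eventually_inj hx, (eventually_all).2 hbX, (eventually_all).2 hbY] with
    ε h1 h2 h3 h4
  unfold G
  rw [if_pos h2, h1]
  have h5 : (∀ i, floorPos ε x i ∈ box ⌊K / ε⌋₊) ↔ ∀ i, bX i ∧ bY i := by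
    refine forall_congr' fun i => ?_
    rw [mem_box, ← h3 i, ← h4 i]
    rfl
  simp only [h5]

theorem tendsto_integral_G {K : ℝ} (hK : 0 < K) {k : ℕ} (clr : Fin k → Color)
    (hae : ∀ᵐ x : Fin k → ℝ × ℝ ∂volume, Gen K x)
    (hev : ∀ x : Fin k → ℝ × ℝ, Gen K x →
      ∃ b : Prop, ∀ᶠ ε : ℝ in 𝓝[>] 0, ∀ A : Site → Color → ℕ → Prop,
      Growth (seedOf (floorPos ε x) clr) A →
      ((∃ n : ℕ, (n : ℝ) ≤ K / ε ∧ A (0, 0) Color.green n) ↔ b)) :
    ∃ l : ℝ, Tendsto (fun ε : ℝ => ∫ x, G K clr ε x) (𝓝[>] 0) (𝓝 l) := by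
  classical
  let g : (Fin k → ℝ × ℝ) → ℝ := fun x =>
    if h : ∃ v : ℝ, ∀ᶠ ε : ℝ in 𝓝[>] 0, G K clr ε x = v then h.choose else 0
  refine ⟨∫ x, g x, ?_⟩
  refine tendsto_integral_filter_of_dominated_convergence
    ((big K k).indicator (fun _ => (1 : ℝ))) ?_ ?_ (integrable_big hK k) ?_
  · exact Eventually.of_forall fun ε => (measurable_G K clr ε).aestronglyMeasurable
  · have h1 : ∀ᶠ ε : ℝ in 𝓝[>] 0, ε < 1 := nhdsWithin_le_nhds (Iio_mem_nhds zero_lt_one)
    filter_upwards [self_mem_nhdsWithin, h1] with ε hε hε1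
    exact Eventually.of_forall fun x => G_bound hK clr hε hε1.le x
  · filter_upwards [hae] with x hx
    have h := eventually_G hK hx (hev x hx)
    have hg : g x = h.choose := dif_pos h
    rw [hg]
    refine tendsto_const_nhds.congr' ?_
    filter_upwards [h.choose_spec] with ε hε
    exact hε.symm

end FiniteTime

end Pool.Agent.Helper69.TC
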