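import Pool.Agent.Helper75.TC.FiniteTimeAux

/-!
Convergence of the probability that the origin is green by a fixed scaled time, assuming that
almost every configuration is generic and that generic configurations have an eventually constant
outcome.
-/

set_option autoImplicit false

open MeasureTheory Filter Topology

namespace Pool.Agent.Helper69.TC

namespace FiniteTime

/-- The `k`-th term. -/
noncomputable def T (c K : ℝ) (k : ℕ) (ε : ℝ) : ℝ :=
  (1 / (k.factorial : ℝ)) * ((1 - (2 + c) * ε ^ 2) ^ ((2 * ⌊K / ε⌋₊ + 1) ^ 2 - k) *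
    ∑ clr : Fin k → Color, (∏ i, wt 1 c (clr i)) * ∫ x, G K clr ε x)

theorem wt_scale (p c : ℝ) (a : Color) : wt p (c * p) a = p * wt 1 c a := by
  cases a <;> simp [wt, mul_comm]

theorem wt_nonneg {c : ℝ} (hc : 0 < c) (a : Color) : 0 ≤ wt 1 c a := by
  cases a <;> simp [wt, hc.le]

theorem sum_wt (c : ℝ) (k : ℕ) :
    ∑ clr : Fin k → Color, ∏ i, wt 1 c (clr i) = (2 + c) ^ k := by
  rw [← Fintype.sum_pow]
  congr 1
  have : (Finset.univ : Finset Color) = {Color.blue, Color.red, Color.green} := rfl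
  rw [this]
  rw [Finset.sum_insert (by decide), Finset.sum_insert (by decide), Finset.sum_singleton]
  simp only [wt]
  ring

open Classical in
theorem law_eq_sum {c K p : ℝ} (hc : 0 < c) (hK : 0 < K) (hp : 0 < p)
    (hp1 : (2 + c) * p ≤ 1) :
    (law p (c * p)).real {ω | GreenBy p K ω} =
      ∑ k ∈ Finset.range ((2 * ⌊K / √p⌋₊ + 1) ^ 2 + 1), T c K k (√p) := by
  have hq : 0 ≤ c * p := by positivity
  have hpq : 2 * p + c * p ≤ 1 := by linarith
  have hε : 0 < √p := Real.sqrt_pos.2 hp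
  have hε2 : √p ^ 2 = p := Real.sq_sqrt hp.le
  rw [law_greenBy hp.le hq hpq hK, expansion hp.le hq hpq (box ⌊K / √p⌋₊) (Φ ⌊K / √p⌋₊)
    (Φ_congr _), card_box]
  refine Finset.sum_congr rfl fun k _ => ?_
  unfold T
  congr 1
  rw [Finset.mul_sum]
  refine Finset.sum_congr rfl fun clr _ => ?_
  have h1 : ∏ i, wt p (c * p) (clr i) = p ^ k * ∏ i, wt 1 c (clr i) := by
    simp only [wt_scale]
    rw [Finset.prod_mul_distrib, Finset.prod_const, Finset.card_univ, Fintype.card_fin]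
  have h2 := sum_eq_integral hε k (box ⌊K / √p⌋₊) (fun z =>
    if Function.Injective z then Φ ⌊K / √p⌋₊ (seedOf z clr) else 0)
  have h3 : (∫ x, G K clr (√p) x) = p ^ k * ∑ z ∈ Fintype.piFinset (fun _ : Fin k =>
      box ⌊K / √p⌋₊), (if Function.Injective z then Φ ⌊K / √p⌋₊ (seedOf z clr) else 0) := by
    rw [hε2] at h2
    rw [h2]
    rfl
  rw [h3, h1, show 1 - (2 + c) * √p ^ 2 = 1 - 2 * p - c * p by rw [hε2]; ring]
  rw [Finset.mul_sum, Finset.mul_sum, Finset.mul_sum]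
  refine Finset.sum_congr rfl fun z _ => ?_
  split_ifs
  · ring
  · ring

theorem T_bound {c K : ℝ} (hc : 0 < c) (hK : 0 < K) {ε : ℝ} (hε : 0 < ε) (hε1 : ε ≤ 1)
    (hε2 : (2 + c) * ε ^ 2 ≤ 1) (k : ℕ) :
    ‖T c K k ε‖ ≤ ((2 + c) * (2 * K + 2) ^ 2) ^ k / (k.factorial : ℝ) := by
  have hG0 : ∀ clr : Fin k → Color, 0 ≤ ∫ x, G K clr ε x := fun clr =>
    integral_nonneg fun x => G_nonneg K clr ε x
  have hw0 : ∀ clr : Fin k → Color, 0 ≤ ∏ i, wt 1 c (clr i) := fun clr =>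
    Finset.prod_nonneg fun i _ => wt_nonneg hc _
  have hs0 : 0 ≤ ∑ clr : Fin k → Color, (∏ i, wt 1 c (clr i)) * ∫ x, G K clr ε x :=
    Finset.sum_nonneg fun clr _ => mul_nonneg (hw0 clr) (hG0 clr)
  have hs1 : ∑ clr : Fin k → Color, (∏ i, wt 1 c (clr i)) * ∫ x, G K clr ε x ≤
      (2 + c) ^ k * ((2 * K + 2) ^ 2) ^ k := by
    rw [← sum_wt, Finset.sum_mul]
    refine Finset.sum_le_sum fun clr _ => ?_
    exact mul_le_mul_of_nonneg_left (integral_G_le hK clr hε hε1) (hw0 clr)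
  have hr0 : 0 ≤ 1 - (2 + c) * ε ^ 2 := by linarith
  have hr1 : 1 - (2 + c) * ε ^ 2 ≤ 1 := by
    have : 0 ≤ (2 + c) * ε ^ 2 := by positivity
    linarith
  have hp1 := pow_le_one₀ (n := (2 * ⌊K / ε⌋₊ + 1) ^ 2 - k) hr0 hr1
  have hp0 := pow_nonneg hr0 ((2 * ⌊K / ε⌋₊ + 1) ^ 2 - k)
  unfold T
  rw [Real.norm_eq_abs, abs_of_nonneg (by positivity), mul_pow, one_div, div_eq_mul_inv, mul_comm]
  refine mul_le_mul_of_nonneg_right ?_ (by positivity)
  calc _ ≤ 1 * ∑ clr : Fin k → Color, (∏ i, wt 1 c (clr i)) * ∫ x, G K clr ε x :=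
        mul_le_mul_of_nonneg_right hp1 hs0
    _ ≤ _ := by rw [one_mul]; exact hs1

theorem tendsto_T {c K : ℝ} (hc : 0 < c) (hK : 0 < K) (k : ℕ)
    (hI : ∀ clr : Fin k → Color, ∃ l : ℝ, Tendsto (fun ε : ℝ => ∫ x, G K clr ε x) (𝓝[>] 0) (𝓝 l)) :
    ∃ l : ℝ, Tendsto (T c K k) (𝓝[>] 0) (𝓝 l) := by
  choose l hl using hI
  exact ⟨_, ((tendsto_card hK hc k).mul (tendsto_finsetSum _ fun clr _ =>
      (hl clr).const_mul (∏ i, wt 1 c (clr i)))).const_mul (1 / (k.factorial : ℝ))⟩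

theorem tendsto_greenBy_of {c : ℝ} (hc : 0 < c) {K : ℝ} (hK : 0 < K)
    (hae : ∀ k : ℕ, ∀ᵐ x : Fin k → ℝ × ℝ ∂volume, Gen K x)
    (hev : ∀ (k : ℕ) (x : Fin k → ℝ × ℝ), Gen K x → ∀ clr : Fin k → Color,
      ∃ b : Prop, ∀ᶠ ε : ℝ in 𝓝[>] 0, ∀ A : Site → Color → ℕ → Prop,
      Growth (seedOf (floorPos ε x) clr) A →
      ((∃ n : ℕ, (n : ℝ) ≤ K / ε ∧ A (0, 0) Color.green n) ↔ b)) :
    ∃ l : ℝ, Tendsto (fun p : ℝ => (law p (c * p)).real {ω | GreenBy p K ω}) (𝓝[>] 0) (𝓝 l) := by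
  classical
  have hT : ∀ k, ∃ l : ℝ, Tendsto (T c K k) (𝓝[>] 0) (𝓝 l) := fun k =>
    tendsto_T hc hK k fun clr => tendsto_integral_G hK clr (hae k) fun x hx => hev k x hx clr
  choose l hl using hT
  -- truncated terms
  let f : ℝ → ℕ → ℝ := fun ε k => if k < (2 * ⌊K / ε⌋₊ + 1) ^ 2 + 1 then T c K k ε else 0
  have hfl : ∀ k, Tendsto (fun ε => f ε k) (𝓝[>] 0) (𝓝 (l k)) := by
    intro k
    refine (hl k).congr' ?_
    have h3 : Tendsto (fun ε : ℝ => K / ε) (𝓝[>] 0) atTop :=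
      (tendsto_inv_nhdsGT_zero (𝕜 := ℝ)).const_mul_atTop hK
    have h4 := tendsto_nat_floor_atTop.comp h3
    filter_upwards [h4.eventually_ge_atTop k] with ε hε
    have h5 : k ≤ ⌊K / ε⌋₊ := hε
    have h6 : k < (2 * ⌊K / ε⌋₊ + 1) ^ 2 + 1 := by nlinarith
    simp only [f]
    rw [if_pos h6]
  have hsum : Summable fun k : ℕ => ((2 + c) * (2 * K + 2) ^ 2) ^ k / (k.factorial : ℝ) :=
    Real.summable_pow_div_factorial _
  have hsmall : ∀ᶠ ε : ℝ in 𝓝[>] 0, 0 < ε ∧ ε ≤ 1 ∧ (2 + c) * ε ^ 2 ≤ 1 := by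
    have h1 : ∀ᶠ ε : ℝ in 𝓝[>] 0, ε < 1 := nhdsWithin_le_nhds (Iio_mem_nhds zero_lt_one)
    have h2 : ∀ᶠ ε : ℝ in 𝓝[>] 0, ε < 1 / (2 + c) :=
      nhdsWithin_le_nhds (Iio_mem_nhds (by positivity))
    filter_upwards [self_mem_nhdsWithin, h1, h2] with ε hε h1 h2
    have hε' : 0 < ε := hε
    refine ⟨hε', h1.le, ?_⟩
    rw [lt_div_iff₀ (by linarith)] at h2
    nlinarith
  have hlim : Tendsto (fun ε => ∑' k, f ε k) (𝓝[>] 0) (𝓝 (∑' k, l k)) := by
    refine tendsto_tsum_of_dominated_convergence hsum hfl ?_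
    filter_upwards [hsmall] with ε hε k
    simp only [f]
    split_ifs
    · exact T_bound hc hK hε.1 hε.2.1 hε.2.2 k
    · rw [norm_zero]
      positivity
  refine ⟨∑' k, l k, ?_⟩
  have hsqrt : Tendsto Real.sqrt (𝓝[>] 0) (𝓝[>] 0) := by
    rw [tendsto_nhdsWithin_iff]
    constructor
    · have := (Real.continuous_sqrt.tendsto 0)
      rw [Real.sqrt_zero] at this
      exact this.mono_left nhdsWithin_le_nhds
    · filter_upwards [self_mem_nhdsWithin] with p hp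
      exact Real.sqrt_pos.2 hp
  refine (hlim.comp hsqrt).congr' ?_
  filter_upwards [self_mem_nhdsWithin, hsqrt.eventually hsmall] with p hp hps
  have hp' : 0 < p := hp
  have hε2 : √p ^ 2 = p := Real.sq_sqrt hp'.le
  obtain ⟨-, -, h3⟩ := hps
  rw [hε2] at h3
  rw [law_eq_sum hc hK hp' h3]
  simp only [Function.comp]
  rw [tsum_eq_sum (s := Finset.range ((2 * ⌊K / √p⌋₊ + 1) ^ 2 + 1))]
  · refine Finset.sum_congr rfl fun k hk => ?_
    simp only [f]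
    rw [if_pos (Finset.mem_range.1 hk)]
  · intro k hk
    simp only [f]
    rw [if_neg (fun h => hk (Finset.mem_range.2 h))]

end FiniteTime

end Pool.Agent.Helper69.TC
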